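import Pool.Agent.H71.AS.Main
import Pool.Graph.R_pool_sql_team_39128cda.Results.MP_17c4bf_an.NotWeakAsplund

/-!
# A Banach space whose product with the finitely supported sequences is weak Asplund
-/

set_option autoImplicit false
set_option linter.unusedSectionVars false

open Set Topology TopologicalSpace

namespace Pool.Agent.H71.AS

open H647R3.Fac

section

variable {E : Type} [AddCommGroup E] [Module ℝ E] [TopologicalSpace E]
  [IsTopologicalAddGroup E] [ContinuousSMul ℝ E]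

lemma of_tendsto {D : Set E} (hD : IsOpen D) {f : E → ℝ} {x : E} (hx : x ∈ D)
    (h : Pool.Agent.H.MP_17c4bf_an.GateauxAt f x) : GateauxAt D f x := by
  obtain ⟨φ, hφ⟩ := h
  refine ⟨φ, fun v ε hε => ?_⟩
  have h1 := (hφ v).eventually (Metric.ball_mem_nhds _ hε)
  rw [eventually_nhdsWithin_iff] at h1
  have h2 : ∀ᶠ t in 𝓝 (0 : ℝ), x + t • v ∈ D := by
    have hc : Continuous fun t : ℝ => x + t • v := by fun_prop
    exact hc.continuousAt.eventually (by simpa using hD.mem_nhds hx)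
  obtain ⟨δ, hδ, h3⟩ := Metric.eventually_nhds_iff.1 (h1.and h2)
  refine ⟨δ, hδ, fun t ht1 ht2 => ?_⟩
  obtain ⟨h4, h5⟩ := h3 (show dist t 0 < δ by rwa [Real.dist_eq, sub_zero])
  refine ⟨h5, ?_⟩
  have h6 := h4 (show t ∈ ({0} : Set ℝ)ᶜ from fun h => by
    rw [mem_singleton_iff] at h
    rw [h, abs_zero] at ht1
    exact lt_irrefl _ ht1)
  rwa [Real.dist_eq] at h6

lemma to_tendsto {D : Set E} {f : E → ℝ} {x : E}
    (h : GateauxAt D f x) : Pool.Agent.H.MP_17c4bf_an.GateauxAt f x := by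
  obtain ⟨φ, hφ⟩ := h
  refine ⟨φ, fun v => ?_⟩
  rw [Metric.tendsto_nhdsWithin_nhds]
  intro ε hε
  obtain ⟨δ, hδ, h1⟩ := hφ v ε hε
  refine ⟨δ, hδ, fun t ht1 ht2 => ?_⟩
  rw [Real.dist_eq, sub_zero] at ht2
  have ht3 : t ≠ 0 := fun h => ht1 (by rw [h]; rfl)
  rw [Real.dist_eq]
  exact (h1 t (abs_pos.2 ht3) ht2).2

end

theorem banach : ∃ (E : Type) (_ : NormedAddCommGroup E) (_ : NormedSpace ℝ E),
    CompleteSpace E ∧ IsWeakAsplund (E × Seq.{0}) ∧ ¬ IsWeakAsplund E := by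
  obtain ⟨E, F, i1, i2, i3, i4, hE, h1, h2⟩ :=
    Pool.Agent.Results.MP_17c4bf_an.NotWeakAsplund.result
  refine ⟨E, i1, i2, hE, ?_, ?_⟩
  · refine (prod_seq (E := E)).2.1 ?_
    intro D hne hD hDc f hfc hf
    obtain ⟨S, s1, -, s3, s4⟩ := good_fst (E := E) (F := F)
      (Q := fun _ f z => Pool.Agent.H.MP_17c4bf_an.GateauxAt f z)
      (fun D a b c f d e => h1 D b c a f e d) D hne hD hDc f hfc hf
    refine (dense_fst s3).trans (closure_mono ?_)
    rintro _ ⟨z, hz, rfl⟩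
    refine ⟨s1 hz, of_tendsto hD (s1 hz) ?_⟩
    obtain ⟨φ, hφ⟩ := s4 z hz
    refine ⟨φ.comp (ContinuousLinearMap.inl ℝ E F), fun v => ?_⟩
    exact hφ (v, 0)
  · intro h
    apply h2
    intro D a b c f d e
    obtain ⟨G, g1, g2, g3, g4⟩ := h D c a b f e d
    exact ⟨G, g1, g2, g3, fun x hx => to_tendsto (g4 x hx)⟩

end Pool.Agent.H71.AS
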