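import Mathlib

/-!
# Topological lemmas: dense `G_δ` subsets of meagre metrizable spaces and of factors
-/

set_option autoImplicit false

open Set Topology TopologicalSpace

universe u v

namespace Pool.Agent.H71.AS

/-- Maximal separated subsets. -/
lemma exists_sep {M : Type u} [MetricSpace M] (A : Set M) {ε : ℝ} (hε : 0 < ε) :
    ∃ S ⊆ A, IsClosed S ∧ ∀ x ∈ A, ∃ s ∈ S, dist x s < ε := by
  obtain ⟨S, hS⟩ := zorn_subset {S : Set M | S ⊆ A ∧ S.Pairwise fun x y => ε ≤ dist x y} (by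
    intro c hc hchain
    refine ⟨⋃₀ c, ⟨sUnion_subset fun s hs => (hc hs).1, ?_⟩, fun s hs => subset_sUnion_of_mem hs⟩
    rw [pairwise_sUnion hchain.directedOn]
    exact fun s hs => (hc hs).2)
  have h1 := hS.prop
  refine ⟨S, h1.1, Metric.isClosed_of_pairwise_le_dist hε h1.2, fun x hx => ?_⟩
  by_contra hcon
  push Not at hcon
  have h2 : insert x S ∈ {S : Set M | S ⊆ A ∧ S.Pairwise fun x y => ε ≤ dist x y} := by
    refine ⟨insert_subset hx h1.1, ?_⟩
    have : Std.Symm (fun x y : M => ε ≤ dist x y) := ⟨fun a b h => by rwa [dist_comm]⟩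
    exact h1.2.insert_of_symm (fun b hb _ => hcon b hb)
  have h3 := hS.le_of_ge h2 (subset_insert x S)
  have h4 := hcon x (h3 (mem_insert x S))
  rw [dist_self] at h4
  exact absurd h4 (not_le.2 hε)

/-- In a metrizable space covered by an increasing sequence of closed nowhere dense sets, dense
subsets of open sets contain dense `G_δ` sets. -/
theorem gdelta_of_cover {M : Type u} [TopologicalSpace M] [MetrizableSpace M] (K : ℕ → Set M)
    (hKc : ∀ n, IsClosed (K n)) (hKd : ∀ n, Dense (K n)ᶜ) (hKm : Monotone K)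
    (hKu : ⋃ n, K n = univ) {D X : Set M} (hD : IsOpen D) (hX : D ⊆ closure X) :
    ∃ G ⊆ X, IsGδ G ∧ D ⊆ closure G := by
  let _ := metrizableSpaceMetric M
  choose S hSA hSc hSd using fun n : ℕ =>
    exists_sep (X \ K n) (show (0 : ℝ) < 1 / (n + 1) by positivity)
  refine ⟨⋃ n, S n, iUnion_subset fun n => (hSA n).trans sdiff_subset, ?_, ?_⟩
  · have e : (⋃ n, S n) = ⋂ m, ((K m)ᶜ ∪ ⋃ n ∈ Finset.range m, S n) := by
      ext x
      simp only [mem_iUnion, mem_iInter, mem_union, mem_compl_iff, Finset.mem_range, exists_prop]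
      constructor
      · rintro ⟨n, hn⟩ m
        by_cases hm : x ∈ K m
        · right
          refine ⟨n, ?_, hn⟩
          by_contra hlt
          exact (hSA n hn).2 (hKm (not_lt.1 hlt) hm)
        · exact Or.inl hm
      · intro h
        obtain ⟨m, hm⟩ := mem_iUnion.1 (hKu ▸ mem_univ x : x ∈ ⋃ n, K n)
        rcases h m with h' | ⟨n, -, hn⟩
        · exact absurd hm h'
        · exact ⟨n, hn⟩
    rw [e]
    refine IsGδ.iInter fun m => IsGδ.union (hKc m).isOpen_compl.isGδ (IsClosed.isGδ ?_)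
    exact isClosed_biUnion_finset fun n _ => hSc n
  · intro x hx
    rw [Metric.mem_closure_iff]
    intro ε hε
    obtain ⟨n, hn⟩ := exists_nat_one_div_lt (half_pos hε)
    have hpos : (0 : ℝ) < 1 / (n + 1) := by positivity
    obtain ⟨y, ⟨hy1, hy2⟩, hy3⟩ := (hKd n).inter_open_nonempty
      (Metric.ball x (1 / (n + 1)) ∩ D) (Metric.isOpen_ball.inter hD)
      ⟨x, Metric.mem_ball_self hpos, hx⟩
    obtain ⟨z, ⟨⟨hz1, hz2⟩, hz3⟩, hz4⟩ := mem_closure_iff.1 (hX hy2)
      (Metric.ball x (1 / (n + 1)) ∩ D ∩ (K n)ᶜ)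
      ((Metric.isOpen_ball.inter hD).inter (hKc n).isOpen_compl) ⟨⟨hy1, hy2⟩, hy3⟩
    obtain ⟨s, hs, hd⟩ := hSd n z ⟨hz4, hz3⟩
    refine ⟨s, mem_iUnion.2 ⟨n, hs⟩, ?_⟩
    have h1 := dist_triangle x z s
    have h2 := Metric.mem_ball.1 hz1
    rw [dist_comm x z] at h1
    linarith

/-- A topological vector space which is not a Baire space is covered by an increasing sequence of
closed nowhere dense sets. -/
theorem exists_cover {E : Type u} [AddCommGroup E] [Module ℝ E] [TopologicalSpace E]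
    [IsTopologicalAddGroup E] [ContinuousSMul ℝ E] (h : ¬ BaireSpace E) :
    ∃ K : ℕ → Set E, (∀ n, IsClosed (K n)) ∧ (∀ n, Dense (K n)ᶜ) ∧ Monotone K ∧
      ⋃ n, K n = univ := by
  have h1 : ∃ f : ℕ → Set E, (∀ n, IsOpen (f n)) ∧ (∀ n, Dense (f n)) ∧
      ¬ Dense (⋂ n, f n) := by
    by_contra hcon
    push Not at hcon
    exact h ⟨fun f h1 h2 => hcon f h1 h2⟩
  obtain ⟨f, hfo, hfd, hf⟩ := h1
  obtain ⟨O, hOo, ⟨p, hp⟩, hO⟩ : ∃ O : Set E, IsOpen O ∧ O.Nonempty ∧ ∀ x ∈ O, ∃ n, x ∉ f n := by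
    rw [dense_iff_inter_open] at hf
    push Not at hf
    obtain ⟨O, h1, h2, h3⟩ := hf
    refine ⟨O, h1, h2, fun x hx => ?_⟩
    by_contra hc
    push Not at hc
    have h4 : x ∈ O ∩ ⋂ n, f n := ⟨hx, mem_iInter.2 hc⟩
    rw [h3] at h4
    exact h4
  let T : ℕ → E → E := fun k x => p + ((1 : ℝ) / ((k : ℝ) + 1)) • x
  have hTc : ∀ k, Continuous (T k) := fun k => by fun_prop
  have hTo : ∀ k, IsOpenMap (T k) := by
    intro k
    have hk : ((1 : ℝ) / ((k : ℝ) + 1)) ≠ 0 := by positivity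
    exact (isOpenMap_add_left p).comp (isOpenMap_smul₀ hk)
  let Q : ℕ → Set E := fun j => (T (Nat.unpair j).1) ⁻¹' (f (Nat.unpair j).2)ᶜ
  have hQc : ∀ j, IsClosed (Q j) := fun j => ((hfo _).isClosed_compl).preimage (hTc _)
  have hQd : ∀ j, Dense (Q j)ᶜ := by
    intro j
    have e : (Q j)ᶜ = (T (Nat.unpair j).1) ⁻¹' (f (Nat.unpair j).2) := by
      simp only [Q, preimage_compl, compl_compl]
    rw [e]
    exact (hfd _).preimage (hTo _)
  refine ⟨fun n => ⋃ j ∈ Finset.range n, Q j, fun n => isClosed_biUnion_finset fun j _ => hQc j,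
    ?_, ?_, ?_⟩
  · intro n
    induction n with
    | zero => simp
    | succ n ih =>
      change Dense (⋃ j ∈ Finset.range (n + 1), Q j)ᶜ
      rw [Finset.range_add_one, Finset.set_biUnion_insert, compl_union]
      exact (hQd n).inter_of_isOpen_left ih (hQc n).isOpen_compl
  · intro m n hmn
    exact biUnion_subset_biUnion_left (by simpa using hmn)
  · rw [eq_univ_iff_forall]
    intro x
    have ht : Filter.Tendsto (fun k : ℕ => T k x) Filter.atTop (𝓝 p) := by
      have h2 : Filter.Tendsto (fun k : ℕ => p + ((1 : ℝ) / ((k : ℝ) + 1)) • x) Filter.atTop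
          (𝓝 (p + (0 : ℝ) • x)) :=
        tendsto_const_nhds.add (tendsto_one_div_add_atTop_nhds_zero_nat.smul tendsto_const_nhds)
      rw [zero_smul, add_zero] at h2
      exact h2
    obtain ⟨k, hk⟩ := (ht.eventually (hOo.mem_nhds hp)).exists
    obtain ⟨n, hn⟩ := hO _ hk
    rw [mem_iUnion]
    refine ⟨Nat.pair k n + 1, ?_⟩
    rw [mem_iUnion₂]
    refine ⟨Nat.pair k n, by simp, ?_⟩
    simp only [Q, Nat.unpair_pair, mem_preimage, mem_compl_iff]
    exact hn

/-- Projection of a dense `G_δ` along a second countable Baire factor. -/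
theorem proj_gdelta {E : Type u} {F : Type v} [TopologicalSpace E] [TopologicalSpace F]
    [BaireSpace E] [BaireSpace F] [SecondCountableTopology F] [Nonempty F] {D : Set E}
    (hD : IsOpen D) {S : Set (E × F)} (hS : IsGδ S) (hSD : Prod.fst ⁻¹' D ⊆ closure S) :
    ∃ G : Set E, G ⊆ D ∧ IsGδ G ∧ D ⊆ closure G ∧ ∀ x ∈ G, ∃ y, (x, y) ∈ S := by
  obtain ⟨W, hWo, hW⟩ := isGδ_iff_eq_iInter_nat.1 hS
  let A : ℕ × countableBasis F → Set E := fun i => Prod.fst '' (W i.1 ∩ Prod.snd ⁻¹' i.2.1)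
  have hA : ∀ i, IsOpen (A i) := fun i =>
    isOpenMap_fst _ ((hWo i.1).inter ((isOpen_of_mem_countableBasis i.2.2).preimage
      continuous_snd))
  refine ⟨D ∩ ⋂ i, A i, inter_subset_left,
    hD.isGδ.inter (IsGδ.iInter fun i => (hA i).isGδ), ?_, ?_⟩
  · have hdense : Dense (⋂ i, (A i ∪ (closure D)ᶜ)) := by
      refine dense_iInter_of_isOpen (fun i => (hA i).union isClosed_closure.isOpen_compl)
        fun i => ?_
      rw [dense_iff_inter_open]
      intro O hO hOne
      by_cases h : (O ∩ D).Nonempty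
      · obtain ⟨x, hx1, hx2⟩ := h
        obtain ⟨v, hv⟩ := nonempty_of_mem_countableBasis i.2.2
        have h1 : ((x, v) : E × F) ∈ closure S := hSD hx2
        obtain ⟨⟨x', y'⟩, h2, h3⟩ := mem_closure_iff.1 h1 ((O ∩ D) ×ˢ i.2.1)
          ((hO.inter hD).prod (isOpen_of_mem_countableBasis i.2.2)) ⟨⟨hx1, hx2⟩, hv⟩
        rw [hW, mem_iInter] at h3
        exact ⟨x', h2.1.1, Or.inl ⟨(x', y'), ⟨h3 i.1, h2.2⟩, rfl⟩⟩
      · obtain ⟨x, hx⟩ := hOne
        refine ⟨x, hx, Or.inr fun hc => h ?_⟩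
        exact mem_closure_iff.1 hc O hO hx
    intro x hx
    rw [mem_closure_iff]
    intro O hO hxO
    obtain ⟨x', ⟨h1, h2⟩, h3⟩ := hdense.inter_open_nonempty (O ∩ D) (hO.inter hD) ⟨x, hxO, hx⟩
    refine ⟨x', h1, h2, ?_⟩
    rw [mem_iInter] at h3 ⊢
    intro i
    rcases h3 i with h4 | h4
    · exact h4
    · exact absurd (subset_closure h2) h4
  · rintro x ⟨-, hx⟩
    rw [mem_iInter] at hx
    have hd : Dense (⋂ n : ℕ, {y : F | (x, y) ∈ W n}) := by
      refine dense_iInter_of_isOpen_nat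
        (fun n => (hWo n).preimage (Continuous.prodMk_right x)) fun n => ?_
      rw [(isBasis_countableBasis F).dense_iff]
      intro V hV _
      obtain ⟨⟨a, b⟩, ⟨h1, h2⟩, h3⟩ := hx (n, ⟨V, hV⟩)
      simp only at h3
      subst h3
      exact ⟨b, h2, h1⟩
    obtain ⟨y, hy⟩ := hd.nonempty
    rw [mem_iInter] at hy
    refine ⟨y, ?_⟩
    rw [hW, mem_iInter]
    exact hy

end Pool.Agent.H71.AS
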