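import Pool.Graph.R_seed8.H647R3.DD
import Pool.Agent.H71.AS.Topo

/-!
# Metrizable factors of (weak) Asplund products
-/

set_option autoImplicit false
set_option linter.unusedSectionVars false

open Set Topology TopologicalSpace

universe u v

namespace Pool.Agent.H71.AS

open H647R3.Fac

section

variable {E : Type u} [AddCommGroup E] [Module ℝ E] [TopologicalSpace E]
  [IsTopologicalAddGroup E] [ContinuousSMul ℝ E]
  {F : Type v} [AddCommGroup F] [Module ℝ F] [TopologicalSpace F]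
  [IsTopologicalAddGroup F] [ContinuousSMul ℝ F]

lemma frechet_fst {D : Set E} {f : E → ℝ} {x : E} {y : F}
    (h : FrechetAt (Prod.fst ⁻¹' D) (fun z : E × F => f z.1) (x, y)) : FrechetAt D f x := by
  obtain ⟨φ, hφ⟩ := h
  refine ⟨φ.comp (ContinuousLinearMap.inl ℝ E F), fun B hB ε hε => ?_⟩
  obtain ⟨δ, hδ, h1⟩ := hφ _ (Bornology.IsVonNBounded.image hB (ContinuousLinearMap.inl ℝ E F))
    ε hε
  refine ⟨δ, hδ, fun t ht1 ht2 b hb => ?_⟩
  obtain ⟨h2, h3⟩ := h1 t ht1 ht2 _ ⟨b, hb, rfl⟩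
  exact ⟨h2, h3⟩

lemma gateaux_fst {D : Set E} {f : E → ℝ} {x : E} {y : F}
    (h : GateauxAt (Prod.fst ⁻¹' D) (fun z : E × F => f z.1) (x, y)) : GateauxAt D f x := by
  obtain ⟨φ, hφ⟩ := h
  refine ⟨φ.comp (ContinuousLinearMap.inl ℝ E F), fun b ε hε => ?_⟩
  obtain ⟨δ, hδ, h1⟩ := hφ (b, 0) ε hε
  exact ⟨δ, hδ, fun t ht1 ht2 => h1 t ht1 ht2⟩

/-- restriction to the functions of the first variable -/
lemma good_fst {Q : Set (E × F) → (E × F → ℝ) → E × F → Prop}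
    (h : ∀ D : Set (E × F), D.Nonempty → IsOpen D → Convex ℝ D → ∀ f : E × F → ℝ,
      ContinuousOn f D → ConvexOn ℝ D f →
      ∃ S : Set (E × F), S ⊆ D ∧ IsGδ S ∧ D ⊆ closure S ∧ ∀ x ∈ S, Q D f x) :
    ∀ D : Set E, D.Nonempty → IsOpen D → Convex ℝ D → ∀ f : E → ℝ, ContinuousOn f D →
      ConvexOn ℝ D f → ∃ S : Set (E × F), S ⊆ Prod.fst ⁻¹' D ∧ IsGδ S ∧
        Prod.fst ⁻¹' D ⊆ closure S ∧ ∀ z ∈ S, Q (Prod.fst ⁻¹' D) (fun z => f z.1) z := by
  intro D hne hD hDc f hfc hf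
  obtain ⟨x, hx⟩ := hne
  refine h (Prod.fst ⁻¹' D) ⟨(x, 0), hx⟩ (hD.preimage continuous_fst)
    (hDc.linear_preimage (LinearMap.fst ℝ E F)) (fun z => f z.1)
    (hfc.comp continuous_fst.continuousOn fun z hz => hz) ?_
  refine ⟨hDc.linear_preimage (LinearMap.fst ℝ E F), fun z hz w hw a b ha hb hab => ?_⟩
  exact hf.2 hz hw ha hb hab

lemma dense_fst {S : Set (E × F)} {D : Set E}
    (hS : Prod.fst ⁻¹' D ⊆ closure S) : D ⊆ closure (Prod.fst '' S) := by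
  intro x hx
  rw [mem_closure_iff]
  intro O hO hxO
  obtain ⟨z, hz1, hz2⟩ := mem_closure_iff.1 (hS (show ((x, 0) : E × F) ∈ Prod.fst ⁻¹' D from hx))
    (Prod.fst ⁻¹' O) (hO.preimage continuous_fst) hxO
  exact ⟨z.1, hz1, z, hz2, rfl⟩

theorem fds_of_prod (h : IsAsplund (E × F)) : IsFDS E := by
  intro D hne hD hDc f hfc hf
  obtain ⟨S, h1, -, h3, h4⟩ := good_fst (Q := FrechetAt) h D hne hD hDc f hfc hf
  refine (dense_fst h3).trans (closure_mono ?_)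
  rintro _ ⟨z, hz, rfl⟩
  exact ⟨h1 hz, frechet_fst (h4 z hz)⟩

theorem gds_of_prod (h : IsWeakAsplund (E × F)) : IsGDS E := by
  intro D hne hD hDc f hfc hf
  obtain ⟨S, h1, -, h3, h4⟩ := good_fst (Q := GateauxAt) h D hne hD hDc f hfc hf
  refine (dense_fst h3).trans (closure_mono ?_)
  rintro _ ⟨z, hz, rfl⟩
  exact ⟨h1 hz, gateaux_fst (h4 z hz)⟩

/-- Baire spaces and second countable Baire factors. -/
theorem baire_fst [BaireSpace E] [BaireSpace F] [SecondCountableTopology F] :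
    (IsAsplund (E × F) → IsAsplund E) ∧ (IsWeakAsplund (E × F) → IsWeakAsplund E) := by
  constructor
  · intro h D hne hD hDc f hfc hf
    obtain ⟨S, -, h2, h3, h4⟩ := good_fst (Q := FrechetAt) h D hne hD hDc f hfc hf
    obtain ⟨G, g1, g2, g3, g4⟩ := proj_gdelta hD h2 h3
    refine ⟨G, g1, g2, g3, fun x hx => ?_⟩
    obtain ⟨y, hy⟩ := g4 x hx
    exact frechet_fst (h4 _ hy)
  · intro h D hne hD hDc f hfc hf
    obtain ⟨S, -, h2, h3, h4⟩ := good_fst (Q := GateauxAt) h D hne hD hDc f hfc hf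
    obtain ⟨G, g1, g2, g3, g4⟩ := proj_gdelta hD h2 h3
    refine ⟨G, g1, g2, g3, fun x hx => ?_⟩
    obtain ⟨y, hy⟩ := g4 x hx
    exact gateaux_fst (h4 _ hy)

end

section

variable {E : Type u} [AddCommGroup E] [Module ℝ E] [TopologicalSpace E]
  [IsTopologicalAddGroup E] [ContinuousSMul ℝ E]

lemma fds_of_asplund (h : IsAsplund E) : IsFDS E := by
  intro D hne hD hDc f hfc hf
  obtain ⟨S, h1, -, h3, h4⟩ := h D hne hD hDc f hfc hf
  exact h3.trans (closure_mono fun x hx => ⟨h1 hx, h4 x hx⟩)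

lemma gds_of_weakAsplund (h : IsWeakAsplund E) : IsGDS E := by
  intro D hne hD hDc f hfc hf
  obtain ⟨S, h1, -, h3, h4⟩ := h D hne hD hDc f hfc hf
  exact h3.trans (closure_mono fun x hx => ⟨h1 hx, h4 x hx⟩)

lemma weak_of_asplund (h : IsAsplund E) : IsWeakAsplund E := by
  intro D hD hDo hDc f hf hfc
  obtain ⟨S, hS1, hS2, hS3, hS4⟩ := h D hD hDo hDc f hf hfc
  refine ⟨S, hS1, hS2, hS3, fun x hx => ?_⟩
  obtain ⟨φ, hφ⟩ := hS4 x hx
  refine ⟨φ, fun y ε hε => ?_⟩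
  obtain ⟨δ, hδ, h5⟩ := hφ {y} (Bornology.isVonNBounded_singleton y) ε hε
  exact ⟨δ, hδ, fun t ht1 ht2 => h5 t ht1 ht2 y (Set.mem_singleton y)⟩

/-- Metrizable spaces which are not Baire. -/
theorem of_not_baire [MetrizableSpace E] (h : ¬ BaireSpace E) :
    (IsFDS E → IsAsplund E) ∧ (IsGDS E → IsWeakAsplund E) := by
  obtain ⟨K, h1, h2, h3, h4⟩ := exists_cover h
  constructor
  · intro hE D hne hD hDc f hfc hf
    obtain ⟨G, g1, g2, g3⟩ := gdelta_of_cover K h1 h2 h3 h4 hD (hE D hne hD hDc f hfc hf)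
    exact ⟨G, fun x hx => (g1 hx).1, g2, g3, fun x hx => (g1 hx).2⟩
  · intro hE D hne hD hDc f hfc hf
    obtain ⟨G, g1, g2, g3⟩ := gdelta_of_cover K h1 h2 h3 h4 hD (hE D hne hD hDc f hfc hf)
    exact ⟨G, fun x hx => (g1 hx).1, g2, g3, fun x hx => (g1 hx).2⟩

/-- finitely supported sequences -/
abbrev Seq : Type u := FS (ULift.{u} ℕ)

instance : MetrizableSpace Seq.{u} := by
  have : MetrizableSpace (ULift.{u} ℕ → ℝ) := metrizableSpace_of_t3_secondCountable _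
  exact (IsEmbedding.subtypeVal (p := fun y : ULift.{u} ℕ → ℝ => y ∈ FS (ULift.{u} ℕ))).metrizableSpace

theorem not_baire_prod : ¬ BaireSpace (E × Seq.{u}) := by
  intro hB
  let U : ℕ → Set (E × Seq.{u}) := fun m => ⋃ i ≥ m, {z | z.2.1 ⟨i⟩ ≠ 0}
  have hc : ∀ i : ℕ, Continuous fun z : E × Seq.{u} => z.2.1 ⟨i⟩ := fun i =>
    (FS_cont (⟨i⟩ : ULift.{u} ℕ)).comp continuous_snd
  have hUo : ∀ m, IsOpen (U m) := fun m =>
    isOpen_biUnion fun i _ => isOpen_ne_fun (hc i) continuous_const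
  have hUd : ∀ m, Dense (U m) := by
    intro m z
    by_cases hz : z ∈ U m
    · exact subset_closure hz
    have hz0 : z.2.1 ⟨m⟩ = 0 := by
      by_contra hne
      exact hz (mem_iUnion₂.2 ⟨m, le_refl m, hne⟩)
    let e : Seq.{u} := ⟨Pi.single ⟨m⟩ 1, by
      change (Function.support (Pi.single (⟨m⟩ : ULift.{u} ℕ) (1 : ℝ))).Finite
      exact (finite_singleton _).subset Pi.support_single_subset⟩
    have ht : Filter.Tendsto (fun n : ℕ => z + ((1 : ℝ) / ((n : ℝ) + 1)) • ((0, e) : E × Seq.{u}))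
        Filter.atTop (𝓝 z) := by
      have h2 : Filter.Tendsto
          (fun n : ℕ => z + ((1 : ℝ) / ((n : ℝ) + 1)) • ((0, e) : E × Seq.{u})) Filter.atTop
          (𝓝 (z + (0 : ℝ) • ((0, e) : E × Seq.{u}))) :=
        tendsto_const_nhds.add (tendsto_one_div_add_atTop_nhds_zero_nat.smul tendsto_const_nhds)
      rw [zero_smul, add_zero] at h2
      exact h2
    refine mem_closure_of_tendsto ht (Filter.Eventually.of_forall fun n => ?_)
    refine mem_iUnion₂.2 ⟨m, le_refl m, ?_⟩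
    have h1 : (z + ((1 : ℝ) / ((n : ℝ) + 1)) • ((0, e) : E × Seq.{u})).2.1 ⟨m⟩ =
        z.2.1 ⟨m⟩ + ((1 : ℝ) / ((n : ℝ) + 1)) * (Pi.single (⟨m⟩ : ULift.{u} ℕ) (1 : ℝ) :
          ULift.{u} ℕ → ℝ) ⟨m⟩ := rfl
    change (z + ((1 : ℝ) / ((n : ℝ) + 1)) • ((0, e) : E × Seq.{u})).2.1 ⟨m⟩ ≠ 0
    rw [h1, hz0, Pi.single_eq_same, zero_add, mul_one]
    positivity
  obtain ⟨z, hz⟩ := (dense_iInter_of_isOpen_nat hUo hUd).nonempty
  have hfin : (Function.support z.2.1).Finite := z.2.2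
  have hfin2 : {i : ℕ | z.2.1 ⟨i⟩ ≠ 0}.Finite :=
    hfin.preimage (f := fun i : ℕ => (⟨i⟩ : ULift.{u} ℕ)) (fun a _ b _ h => by simpa using h)
  obtain ⟨m, hm⟩ := hfin2.bddAbove
  have h1 := mem_iInter.1 hz (m + 1)
  obtain ⟨i, hi, h2⟩ := mem_iUnion₂.1 h1
  have h3 := hm h2
  omega

theorem fds_prod (h : IsFDS E) [LocallyConvexSpace ℝ E] : IsFDS (E × Seq.{u}) := by
  intro D hne hD hDc g hgc hg
  have hdense := dense_prod (𝓑E := bdd E) (𝓑 := bdd (E × Seq.{u}))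
    (fun B hB => fst_bdd hB) (fun B hB a => coord_bdd hB a)
    (fun D hne hD hDc f hfc hf => (h D hne hD hDc f hfc hf).trans
      (closure_mono fun x hx => ⟨hx.1, sd_of_diff (frechet_iff.1 hx.2)⟩)) hD hgc hg
  refine hdense.trans (closure_mono fun z hz => ⟨hz.1, ?_⟩)
  exact frechet_iff.2 (diff_of_sd hD hgc hg hz.1 (fun h => singleton_bdd h) hz.2)

theorem gds_prod (h : IsGDS E) [LocallyConvexSpace ℝ E] : IsGDS (E × Seq.{u}) := by
  intro D hne hD hDc g hgc hg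
  have hsub : ∀ B ∈ sing (E × Seq.{u}), B ∈ bdd (E × Seq.{u}) := by
    rintro B ⟨h, rfl⟩
    exact singleton_bdd h
  have hdense := dense_prod (𝓑E := sing E) (𝓑 := sing (E × Seq.{u}))
    (by
      rintro B ⟨h, rfl⟩
      exact ⟨h.1, image_singleton⟩) (fun B hB a => coord_bdd (hsub B hB) a)
    (fun D hne hD hDc f hfc hf => (h D hne hD hDc f hfc hf).trans
      (closure_mono fun x hx => ⟨hx.1, sd_of_diff (gateaux_iff.1 hx.2)⟩)) hD hgc hg
  refine hdense.trans (closure_mono fun z hz => ⟨hz.1, ?_⟩)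
  exact gateaux_iff.2 (diff_of_sd hD hgc hg hz.1 (fun h => ⟨h, rfl⟩) hz.2)

/-- Metrizable spaces times the space of finitely supported sequences. -/
theorem prod_seq [LocallyConvexSpace ℝ E] [MetrizableSpace E] :
    (IsFDS E ↔ IsAsplund (E × Seq.{u})) ∧ (IsGDS E ↔ IsWeakAsplund (E × Seq.{u})) :=
  ⟨⟨fun h => (of_not_baire not_baire_prod).1 (fds_prod h), fds_of_prod⟩,
    ⟨fun h => (of_not_baire not_baire_prod).2 (gds_prod h), gds_of_prod⟩⟩

end

end Pool.Agent.H71.AS
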