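import Pool.Agent.H71.AS.Main

/-!
# Normed spaces: the points of Fréchet differentiability form a `G_δ`
-/

set_option autoImplicit false
set_option linter.unusedSectionVars false

open Set Topology TopologicalSpace

universe u v

namespace Pool.Agent.H71.AS

open H647R3.Fac

variable {E : Type u} [NormedAddCommGroup E] [NormedSpace ℝ E]

/-- approximate differentiability, uniformly near the point -/
def OO (D : Set E) (f : E → ℝ) (n : ℕ) : Set E :=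
  {x | ∃ δ : ℝ, 0 < δ ∧ ∃ V : Set E, IsOpen V ∧ x ∈ V ∧ ∀ x' ∈ V, ∀ h : E, ‖h‖ ≤ 1 →
    x' + δ • h ∈ D ∧ x' - δ • h ∈ D ∧ f (x' + δ • h) + f (x' - δ • h) - 2 * f x' ≤ δ / (n + 1)}

lemma OO_open (D : Set E) (f : E → ℝ) (n : ℕ) : IsOpen (OO D f n) := by
  rw [isOpen_iff_forall_mem_open]
  rintro x ⟨δ, hδ, V, hV, hxV, h⟩
  exact ⟨V, fun y hy => ⟨δ, hδ, V, hV, hy, h⟩, hV, hxV⟩

lemma sub_OO {D : Set E} (hD : IsOpen D) {f : E → ℝ} (hfc : ContinuousOn f D)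
    (hf : ConvexOn ℝ D f) {x : E} (hx : x ∈ D) (h : FrechetAt D f x) (n : ℕ) : x ∈ OO D f n := by
  have hlip : LocallyLipschitzOn D f :=
    ((ConvexOn.continuousOn_tfae hD ⟨x, hx⟩ hf).out 1 0).1 hfc
  obtain ⟨K, T, hT, hK⟩ := hlip hx
  rw [hD.nhdsWithin_eq hx] at hT
  obtain ⟨r, hr, hrT⟩ := Metric.mem_nhds_iff.1 hT
  have hB : Metric.closedBall (0 : E) 1 ∈ bdd E :=
    (NormedSpace.isVonNBounded_iff ℝ).2 Metric.isBounded_closedBall
  obtain ⟨δ₀, hδ₀, h1⟩ := sd_of_diff (frechet_iff.1 h) _ hB (1 / (2 * ((n : ℝ) + 1)))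
    (by positivity)
  obtain ⟨r', hr', hrD⟩ := Metric.mem_nhds_iff.1 (hD.mem_nhds hx)
  set ρ : ℝ := min r r' with hρ
  have hρ0 : 0 < ρ := lt_min hr hr'
  set δ : ℝ := min δ₀ ρ / 2 with hδ
  have hm : 0 < min δ₀ ρ := lt_min hδ₀ hρ0
  have hδ0 : 0 < δ := by positivity
  have hδ1 : δ < δ₀ := by
    have := min_le_left δ₀ ρ
    rw [hδ]; linarith
  have hδ2 : δ ≤ ρ / 2 := by
    have := min_le_right δ₀ ρ
    rw [hδ]; linarith
  set η : ℝ := min (ρ / 2) (δ / (8 * ((K : ℝ) + 1) * ((n : ℝ) + 1))) with hη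
  have hK0 : (0 : ℝ) ≤ K := K.2
  have hη0 : 0 < η := lt_min (by positivity) (by positivity)
  have hη1 : η ≤ ρ / 2 := min_le_left _ _
  have hη2 : η * (8 * ((K : ℝ) + 1) * ((n : ℝ) + 1)) ≤ δ := by
    rw [← le_div_iff₀ (by positivity)]
    exact min_le_right _ _
  refine ⟨δ, hδ0, Metric.ball x η, Metric.isOpen_ball, Metric.mem_ball_self hη0,
    fun x' hx' v hv => ?_⟩
  rw [Metric.mem_ball, dist_eq_norm] at hx'
  have hin : ∀ y : E, ‖y - x‖ < ρ → y ∈ D ∧ y ∈ T := fun y hy =>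
    ⟨hrD (by rw [Metric.mem_ball, dist_eq_norm]; exact hy.trans_le (min_le_right _ _)),
      hrT (by rw [Metric.mem_ball, dist_eq_norm]; exact hy.trans_le (min_le_left _ _))⟩
  have hnv : ‖δ • v‖ ≤ δ := by
    rw [norm_smul, Real.norm_eq_abs, abs_of_pos hδ0]
    nlinarith
  have a1 : ‖x' + δ • v - x‖ < ρ := by
    have e : x' + δ • v - x = (x' - x) + δ • v := by abel
    rw [e]
    have := norm_add_le (x' - x) (δ • v)
    linarith
  have a2 : ‖x' - δ • v - x‖ < ρ := by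
    have e : x' - δ • v - x = (x' - x) - δ • v := by abel
    rw [e]
    have := norm_sub_le (x' - x) (δ • v)
    linarith
  have a3 : ‖x + δ • v - x‖ < ρ := by
    rw [add_sub_cancel_left]; linarith
  have a4 : ‖x - δ • v - x‖ < ρ := by
    have e : x - δ • v - x = - (δ • v) := by abel
    rw [e, norm_neg]; linarith
  have a5 : ‖x' - x‖ < ρ := by linarith
  have a6 : ‖x - x‖ < ρ := by rw [sub_self, norm_zero]; exact hρ0
  refine ⟨(hin _ a1).1, (hin _ a2).1, ?_⟩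
  have l1 := hK.dist_le_mul _ (hin _ a1).2 _ (hin _ a3).2
  have l2 := hK.dist_le_mul _ (hin _ a2).2 _ (hin _ a4).2
  have l3 := hK.dist_le_mul _ (hin _ a5).2 _ (hin _ a6).2
  rw [dist_add_right, Real.dist_eq, dist_eq_norm] at l1
  rw [dist_sub_right, Real.dist_eq, dist_eq_norm] at l2
  rw [Real.dist_eq, dist_eq_norm] at l3
  have l4 : (K : ℝ) * ‖x' - x‖ ≤ K * η := by nlinarith
  obtain ⟨-, -, h2⟩ := h1 v (by rw [mem_closedBall_zero_iff]; exact hv) δ hδ0 hδ1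
  have m1 := (abs_le.1 l1).2
  have m2 := (abs_le.1 l2).2
  have m3 := (abs_le.1 l3).1
  have hn : (0 : ℝ) < (n : ℝ) + 1 := by positivity
  have h3 : 1 / (2 * ((n : ℝ) + 1)) * δ = δ / (n + 1) / 2 := by field_simp
  have h4 : 4 * (K * η) ≤ δ / (n + 1) / 2 := by
    rw [le_div_iff₀ (by norm_num), le_div_iff₀ hn]
    nlinarith [mul_nonneg (mul_nonneg hK0 hη0.le) hn.le, mul_pos hη0 hn]
  linarith

lemma OO_sub {D : Set E} (hD : IsOpen D) {f : E → ℝ} (hfc : ContinuousOn f D)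
    (hf : ConvexOn ℝ D f) {x : E} (h : ∀ n, x ∈ OO D f n) : x ∈ D ∧ FrechetAt D f x := by
  have hx : x ∈ D := by
    obtain ⟨δ, -, V, -, hxV, h1⟩ := h 0
    have := (h1 x hxV 0 (by rw [norm_zero]; norm_num)).1
    rwa [smul_zero, add_zero] at this
  refine ⟨hx, frechet_iff.2 (diff_of_sd hD hfc hf hx (fun h => singleton_bdd h) ?_)⟩
  intro B hB ε hε
  obtain ⟨R₀, hR₀⟩ := isBounded_iff_forall_norm_le.1 ((NormedSpace.isVonNBounded_iff ℝ).1 hB)
  set R : ℝ := max R₀ 1 with hR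
  have hR0 : 0 < R := lt_of_lt_of_le one_pos (le_max_right _ _)
  obtain ⟨n, hn⟩ := exists_nat_one_div_lt (div_pos hε hR0)
  obtain ⟨δ, hδ, V, -, hxV, h1⟩ := h n
  refine ⟨δ / R, div_pos hδ hR0, fun v hv t ht0 ht1 => ?_⟩
  rw [lt_div_iff₀ hR0] at ht1
  have hv1 : ‖(R⁻¹ : ℝ) • v‖ ≤ 1 := by
    rw [norm_smul, Real.norm_eq_abs, abs_of_pos (inv_pos.2 hR0), inv_mul_le_iff₀ hR0, mul_one]
    exact (hR₀ v hv).trans (le_max_left _ _)
  obtain ⟨h2, h3, h4⟩ := h1 x hxV _ hv1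
  set a : ℝ := t * R / δ with ha
  have ha0 : 0 ≤ a := by positivity
  have ha1 : a ≤ 1 := by
    rw [ha, div_le_one hδ]; exact ht1.le
  have e1 : (1 - a) • x + a • (x + δ • (R⁻¹ : ℝ) • v) = x + t • v := by
    have e : a * δ * R⁻¹ = t := by rw [ha]; field_simp
    rw [smul_add, smul_smul, smul_smul, e, ← add_assoc, ← add_smul]
    simp
  have e2 : (1 - a) • x + a • (x - δ • (R⁻¹ : ℝ) • v) = x - t • v := by
    have e : a * δ * R⁻¹ = t := by rw [ha]; field_simp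
    rw [smul_sub, smul_smul, smul_smul, e, ← add_sub_assoc, ← add_smul]
    simp
  have c1 := hf.1 hx h2 (sub_nonneg.2 ha1) ha0 (by ring)
  have c2 := hf.1 hx h3 (sub_nonneg.2 ha1) ha0 (by ring)
  have f1 := hf.2 hx h2 (sub_nonneg.2 ha1) ha0 (by ring)
  have f2 := hf.2 hx h3 (sub_nonneg.2 ha1) ha0 (by ring)
  rw [e1] at c1 f1
  rw [e2] at c2 f2
  refine ⟨c1, c2, ?_⟩
  simp only [smul_eq_mul] at f1 f2
  have g1 : a * (f (x + δ • (R⁻¹ : ℝ) • v) + f (x - δ • (R⁻¹ : ℝ) • v) - 2 * f x) ≤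
      a * (δ / (n + 1)) := mul_le_mul_of_nonneg_left h4 ha0
  have g2 : a * (δ / (n + 1)) = t * R * (1 / ((n : ℝ) + 1)) := by
    rw [ha]; field_simp
  have g3 : t * R * (1 / ((n : ℝ) + 1)) ≤ ε * t := by
    have g4 : R * (1 / ((n : ℝ) + 1)) ≤ ε := by
      rw [lt_div_iff₀ hR0] at hn
      linarith
    nlinarith
  linarith

/-- For normed spaces, Fréchet differentiability spaces are Asplund. -/
theorem asplund_of_fds (h : IsFDS E) : IsAsplund E := by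
  intro D hne hD hDc f hfc hf
  refine ⟨⋂ n, OO D f n, fun x hx => (OO_sub hD hfc hf (mem_iInter.1 hx)).1,
    IsGδ.iInter fun n => (OO_open D f n).isGδ, ?_, fun x hx => (OO_sub hD hfc hf
      (mem_iInter.1 hx)).2⟩
  refine (h D hne hD hDc f hfc hf).trans (closure_mono fun x hx => mem_iInter.2 fun n => ?_)
  exact sub_OO hD hfc hf hx.1 hx.2 n

end Pool.Agent.H71.AS
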