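import Pool.Agent.H71.AS.Main

/-!
# Separable spaces: the points of Gâteaux differentiability form a `G_δ`
-/

set_option autoImplicit false
set_option linter.unusedSectionVars false

open Set Topology TopologicalSpace

universe u v

namespace Pool.Agent.H71.AS

open H647R3.Fac

variable {E : Type u} [AddCommGroup E] [Module ℝ E] [TopologicalSpace E]
  [IsTopologicalAddGroup E] [ContinuousSMul ℝ E]

/-- small second difference in the direction `v` -/
def PP (D : Set E) (f : E → ℝ) (v : E) (n : ℕ) : Set E :=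
  {x | ∃ δ : ℝ, 0 < δ ∧ x ∈ D ∧ x + δ • v ∈ D ∧ x - δ • v ∈ D ∧
    f (x + δ • v) + f (x - δ • v) - 2 * f x < δ / (n + 1)}

lemma PP_open {D : Set E} (hD : IsOpen D) {f : E → ℝ} (hfc : ContinuousOn f D) (v : E) (n : ℕ) :
    IsOpen (PP D f v n) := by
  rw [isOpen_iff_mem_nhds]
  rintro x ⟨δ, hδ, h1, h2, h3, h4⟩
  have c1 : ContinuousAt (fun y : E => y + δ • v) x := by fun_prop
  have c2 : ContinuousAt (fun y : E => y - δ • v) x := by fun_prop
  have d1 : ContinuousAt f x := hfc.continuousAt (hD.mem_nhds h1)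
  have d2 : ContinuousAt (fun y => f (y + δ • v)) x :=
    ContinuousAt.comp (f := fun y : E => y + δ • v) (hfc.continuousAt (hD.mem_nhds h2)) c1
  have d3 : ContinuousAt (fun y => f (y - δ • v)) x :=
    ContinuousAt.comp (f := fun y : E => y - δ • v) (hfc.continuousAt (hD.mem_nhds h3)) c2
  have d4 : ContinuousAt (fun y => f (y + δ • v) + f (y - δ • v) - 2 * f y) x :=
    (d2.add d3).sub (continuousAt_const.mul d1)
  filter_upwards [hD.mem_nhds h1, c1.eventually (hD.mem_nhds h2), c2.eventually (hD.mem_nhds h3),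
    d4.eventually (eventually_lt_nhds h4)] with y e1 e2 e3 e4
  exact ⟨δ, hδ, e1, e2, e3, e4⟩

/-- monotonicity of the second difference quotients -/
lemma second_mono {D : Set E} {f : E → ℝ} (hf : ConvexOn ℝ D f) {x w : E} {δ t : ℝ} (hx : x ∈ D)
    (hδ : 0 < δ) (h1 : x + δ • w ∈ D) (h2 : x - δ • w ∈ D) (ht0 : 0 ≤ t) (ht1 : t ≤ δ) :
    x + t • w ∈ D ∧ x - t • w ∈ D ∧ f (x + t • w) + f (x - t • w) - 2 * f x ≤
      t / δ * (f (x + δ • w) + f (x - δ • w) - 2 * f x) := by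
  set a : ℝ := t / δ with ha
  have ha0 : 0 ≤ a := by positivity
  have ha1 : a ≤ 1 := by
    rw [ha, div_le_one hδ]; exact ht1
  have e : a * δ = t := by rw [ha]; field_simp
  have e1 : (1 - a) • x + a • (x + δ • w) = x + t • w := by
    rw [smul_add, smul_smul, e, ← add_assoc, ← add_smul]
    simp
  have e2 : (1 - a) • x + a • (x - δ • w) = x - t • w := by
    rw [smul_sub, smul_smul, e, ← add_sub_assoc, ← add_smul]
    simp
  have c1 := hf.1 hx h1 (sub_nonneg.2 ha1) ha0 (by ring)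
  have c2 := hf.1 hx h2 (sub_nonneg.2 ha1) ha0 (by ring)
  have f1 := hf.2 hx h1 (sub_nonneg.2 ha1) ha0 (by ring)
  have f2 := hf.2 hx h2 (sub_nonneg.2 ha1) ha0 (by ring)
  rw [e1] at c1 f1
  rw [e2] at c2 f2
  refine ⟨c1, c2, ?_⟩
  simp only [smul_eq_mul] at f1 f2
  linarith

lemma PP_sub {D : Set E} (hD : IsOpen D) {f : E → ℝ} (hfc : ContinuousOn f D)
    (hf : ConvexOn ℝ D f) {A : Set E} (hA : Dense A) {x : E} (hx : x ∈ D)
    (h : ∀ v ∈ A, ∀ n, x ∈ PP D f v n) : GateauxAt D f x := by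
  refine gateaux_iff.2 (diff_of_sd hD hfc hf hx (fun h => ⟨h, rfl⟩) ?_)
  rintro B ⟨v, rfl⟩ ε hε
  -- a neighbourhood of zero on which `f` is bounded
  have hc : ContinuousAt (fun w : E => f (x + w) + f (x - w) - 2 * f x) 0 := by
    have d1 : ContinuousAt (fun y : E => f (x + y)) 0 := by
      refine ContinuousAt.comp (f := fun y : E => x + y) (g := f) ?_ (by fun_prop)
      rw [add_zero]; exact hfc.continuousAt (hD.mem_nhds hx)
    have d2 : ContinuousAt (fun y : E => f (x - y)) 0 := by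
      refine ContinuousAt.comp (f := fun y : E => x - y) (g := f) ?_ (by fun_prop)
      rw [sub_zero]; exact hfc.continuousAt (hD.mem_nhds hx)
    exact (d1.add d2).sub continuousAt_const
  have hU : ∀ᶠ w in 𝓝 (0 : E), x + w ∈ D ∧ x - w ∈ D ∧
      f (x + w) + f (x - w) - 2 * f x < 1 := by
    have c1 : ContinuousAt (fun y : E => x + y) 0 := by fun_prop
    have c2 : ContinuousAt (fun y : E => x - y) 0 := by fun_prop
    have g1 := c1.eventually (show D ∈ 𝓝 (x + 0) by rw [add_zero]; exact hD.mem_nhds hx)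
    have g2 := c2.eventually (show D ∈ 𝓝 (x - 0) by rw [sub_zero]; exact hD.mem_nhds hx)
    have g3 := hc.eventually (eventually_lt_nhds (show
      f (x + 0) + f (x - 0) - 2 * f x < 1 by rw [add_zero, sub_zero]; linarith))
    filter_upwards [g1, g2, g3] with w a b c using ⟨a, b, c⟩
  -- a direction of `A` close to `v`
  obtain ⟨v', hv'A, hv'⟩ : ∃ v' ∈ A, x + (4 / ε) • (v - v') ∈ D ∧ x - (4 / ε) • (v - v') ∈ D ∧
      f (x + (4 / ε) • (v - v')) + f (x - (4 / ε) • (v - v')) - 2 * f x < 1 := by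
    have c3 : ContinuousAt (fun y : E => (4 / ε) • (v - y)) v := by fun_prop
    have g4 := c3.eventually (show ∀ᶠ w in 𝓝 ((4 / ε) • (v - v)), x + w ∈ D ∧ x - w ∈ D ∧
      f (x + w) + f (x - w) - 2 * f x < 1 by rw [sub_self, smul_zero]; exact hU)
    obtain ⟨v', h1, h2⟩ := mem_closure_iff_nhds.1 (hA v) _ g4
    exact ⟨v', h2, h1⟩
  obtain ⟨n, hn⟩ := exists_nat_one_div_lt (half_pos hε)
  obtain ⟨δ, hδ, -, p1, p2, p3⟩ := h v' hv'A n
  refine ⟨min (δ / 2) (2 / ε), lt_min (by positivity) (by positivity), ?_⟩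
  intro w hw t ht0 ht1
  rw [mem_singleton_iff] at hw
  subst hw
  have t1 : 2 * t ≤ δ := by
    have := ht1.trans_le (min_le_left _ _); linarith
  have t2 : 2 * t ≤ 4 / ε := by
    have := ht1.trans_le (min_le_right _ _)
    have e : (4 : ℝ) / ε = 2 * (2 / ε) := by ring
    rw [e]; linarith
  obtain ⟨q1, q2, q3⟩ := second_mono hf hx hδ p1 p2 (by positivity : (0 : ℝ) ≤ 2 * t) t1
  obtain ⟨r1, r2, r3⟩ := second_mono hf hx (by positivity : (0 : ℝ) < 4 / ε) hv'.1 hv'.2.1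
    (by positivity : (0 : ℝ) ≤ 2 * t) t2
  have e1 : (1 / 2 : ℝ) • (x + (2 * t) • v') + (1 / 2 : ℝ) • (x + (2 * t) • (w - v')) =
      x + t • w := by module
  have e2 : (1 / 2 : ℝ) • (x - (2 * t) • v') + (1 / 2 : ℝ) • (x - (2 * t) • (w - v')) =
      x - t • w := by module
  have c1 := hf.1 q1 r1 (by norm_num : (0 : ℝ) ≤ 1 / 2) (by norm_num : (0 : ℝ) ≤ 1 / 2)
    (by norm_num)
  have c2 := hf.1 q2 r2 (by norm_num : (0 : ℝ) ≤ 1 / 2) (by norm_num : (0 : ℝ) ≤ 1 / 2)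
    (by norm_num)
  have f1 := hf.2 q1 r1 (by norm_num : (0 : ℝ) ≤ 1 / 2) (by norm_num : (0 : ℝ) ≤ 1 / 2)
    (by norm_num)
  have f2 := hf.2 q2 r2 (by norm_num : (0 : ℝ) ≤ 1 / 2) (by norm_num : (0 : ℝ) ≤ 1 / 2)
    (by norm_num)
  rw [e1] at c1 f1
  rw [e2] at c2 f2
  refine ⟨c1, c2, ?_⟩
  simp only [smul_eq_mul] at f1 f2
  have g1 : 2 * t / δ * (f (x + δ • v') + f (x - δ • v') - 2 * f x) ≤
      2 * t / δ * (δ / (n + 1)) := mul_le_mul_of_nonneg_left p3.le (by positivity)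
  have g2 : 2 * t / δ * (δ / (n + 1)) = 2 * t * (1 / ((n : ℝ) + 1)) := by field_simp
  have g3 : 2 * t * (1 / ((n : ℝ) + 1)) ≤ 2 * t * (ε / 2) :=
    mul_le_mul_of_nonneg_left hn.le (by positivity)
  have g4 : 2 * t / (4 / ε) * (f (x + (4 / ε) • (w - v')) + f (x - (4 / ε) • (w - v')) - 2 * f x) ≤
      2 * t / (4 / ε) * 1 := mul_le_mul_of_nonneg_left hv'.2.2.le (by positivity)
  have g5 : 2 * t / (4 / ε) * 1 = t * ε / 2 := by field_simp; norm_num
  have g6 : 0 < t * ε := mul_pos ht0 hε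
  linarith

/-- For separable spaces, Gâteaux differentiability spaces are weak Asplund. -/
theorem weakAsplund_of_gds [SeparableSpace E] (h : IsGDS E) : IsWeakAsplund E := by
  intro D hne hD hDc f hfc hf
  obtain ⟨A, hAc, hAd⟩ := exists_countable_dense E
  have key : {x | x ∈ D ∧ GateauxAt D f x} = D ∩ ⋂ v ∈ A, ⋂ n, PP D f v n := by
    ext x
    constructor
    · rintro ⟨hx, hg⟩
      refine ⟨hx, mem_iInter₂.2 fun v _ => mem_iInter.2 fun n => ?_⟩
      obtain ⟨δ, hδ, h1⟩ := sd_of_diff (gateaux_iff.1 hg) {v} ⟨v, rfl⟩ (1 / (2 * ((n : ℝ) + 1)))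
        (by positivity)
      obtain ⟨h2, h3, h4⟩ := h1 v (mem_singleton v) (δ / 2) (by positivity) (by linarith)
      refine ⟨δ / 2, by positivity, hx, h2, h3, lt_of_le_of_lt h4 ?_⟩
      have e : 1 / (2 * ((n : ℝ) + 1)) * (δ / 2) = (δ / 2 / (n + 1)) / 2 := by field_simp
      have e2 : 0 < δ / 2 / ((n : ℝ) + 1) := by positivity
      rw [e]; linarith
    · rintro ⟨hx, hg⟩
      exact ⟨hx, PP_sub hD hfc hf hAd hx fun v hv n => mem_iInter.1 (mem_iInter₂.1 hg v hv) n⟩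
  refine ⟨{x | x ∈ D ∧ GateauxAt D f x}, fun x hx => hx.1, ?_, h D hne hD hDc f hfc hf,
    fun x hx => hx.2⟩
  rw [key]
  exact hD.isGδ.inter (IsGδ.biInter hAc fun v _ => IsGδ.iInter fun n => (PP_open hD hfc v n).isGδ)

end Pool.Agent.H71.AS
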